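import Pool.Agent.Helper29.Cc.Rem

/-! # The induction step: putting one site back -/

set_option autoImplicit false

open MeasureTheory Filter Topology ProbabilityTheory
open scoped BigOperators ENNReal NNReal InnerProductSpace ComplexConjugate

namespace Pool.Agent.Helper29.Cc

open Pool.Agent.H5R2.NB Pool.Agent.Helper26.Nb Pool.Agent.Helper26.Cm Pool.Agent.Helper26.Dj
  Pool.Agent.Helper26.Rg Pool.Agent.Helper26.Cc
open Pool.Agent.TH369.AN (Rz pt ro cp fc pt_sa cp_sa rz_eq rz_uniq rz_norm)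
open Pool.Agent.TH369.MU (zk ep)

variable {d : ℕ}

/-- the annealed statement for the operators with the sites of `l` removed -/
def PL (c : ℝ) {R : ℝ} (hR : 0 ≤ R) (ρ : Measure ℝ) (f g : ℝ → ℝ) (l : List (Site d)) : Prop :=
  ∀ L η : ℝ, 0 < η → ∃ δ : ℝ, 0 < δ ∧ ∀ k : ℕ,
    ((volume.restrict (Set.Icc (-L) L)).prod (Measure.infinitePi fun _ : Site d => ρ))
      {p : ℝ × (Site d → ℝ) |
        ‖wf (rem l (TC c hR (Function.update p.2 0 0))) (dl 0) (zc f g p.1 k) -
          wf (rem l (TC c hR (Function.update p.2 0 0))) (dl 0) (zk p.1 k)‖ < δ} ≤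
        ENNReal.ofReal η

lemma TC_upd' (c : ℝ) {R : ℝ} (hR : 0 ≤ R) (V : Site d → ℝ) {y : Site d} (hy : y ≠ 0) (κ : ℝ) :
    TC c hR (Function.update (Function.update V y κ) 0 0) =
      pt (TC c hR (Function.update (Function.update V y 0) 0 0)) (dl y) (max (-R) (min R κ)) := by
  have h1 : |max (-R) (min R κ)| ≤ R := by
    rw [abs_le]
    exact ⟨le_max_left _ _, max_le (by linarith) (min_le_left _ _)⟩
  rw [← TC_upd c hR V hy h1]
  have h2 : cl R (Function.update (Function.update V y κ) 0 0) =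
      cl R (Function.update (Function.update V y (max (-R) (min R κ))) 0 0) := by
    funext x
    unfold cl pot
    by_cases h0 : x = 0
    · subst h0
      rw [Function.update_self, Function.update_self]
    · rw [Function.update_of_ne h0, Function.update_of_ne h0]
      by_cases h3 : x = y
      · subst h3
        rw [Function.update_self, Function.update_self]
        show max (-R) (min R κ) = max (-R) (min R (max (-R) (min R κ)))
        rw [abs_le] at h1
        rw [min_eq_right h1.2, max_eq_right h1.1]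
      · rw [Function.update_of_ne h3, Function.update_of_ne h3]
  ext ψ x
  rw [TC_apply, TC_apply, h2]

lemma rem_cons (c : ℝ) {R : ℝ} (hR : 0 ≤ R) (V : Site d → ℝ) {y : Site d} (hy : y ≠ 0)
    {l : List (Site d)} (hl : y ∉ l) :
    rem (y :: l) (TC c hR (Function.update V 0 0)) =
      cp (rem l (TC c hR (Function.update (Function.update V y 0) 0 0))) (dl y) := by
  have h1 : V = Function.update V y (V y) := (Function.update_eq_self y V).symm
  show cp (rem l (TC c hR (Function.update V 0 0))) (dl y) = _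
  nth_rewrite 1 [h1]
  rw [TC_upd' c hR V hy, rem_pt _ hl, cp_pt_eq]

lemma dl_ne (x : Site d) : (dl x : L2 (Site d)) ≠ 0 := by
  intro h
  have := STAT.norm_dl x
  rw [h, norm_zero] at this
  exact zero_ne_one this

lemma inner_dl_ne {x y : Site d} (h : x ≠ y) : ⟪(dl x : L2 (Site d)), dl y⟫_ℂ = 0 := by
  rw [CV.inner_dl, dl_apply, if_neg (Ne.symm h)]

lemma ep_pos (k : ℕ) : 0 < ep k := by unfold ep; positivity

section
variable {h f g : ℝ → ℝ}

lemma zc_im (hC : Cur h f g) (E : ℝ) (k : ℕ) : (zc f g E k).im ≠ 0 := by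
  obtain ⟨m, M, hm, hb⟩ := hC.bd
  have h1 : g E ≠ 0 := by
    intro h0
    have := (hb E).1
    rw [h0, abs_zero] at this
    linarith
  have h2 : (zc f g E k).im = g E * ep k := by
    unfold zc
    rw [Complex.add_im, Complex.ofReal_im, Complex.mul_I_im, Complex.ofReal_re, zero_add]
  rw [h2]
  exact mul_ne_zero h1 (ep_pos k).ne'

lemma zk_im (E : ℝ) (k : ℕ) : (zk E k).im ≠ 0 := Pool.Agent.TH369.MU.RS.zk_im_ne E k

lemma cont_zc (hC : Cur h f g) (k : ℕ) : Continuous fun E : ℝ => zc f g E k := by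
  have h1 : Continuous f := continuous_iff_continuousAt.2 fun E => (hC.der E).continuousAt
  have h2 := hC.cont
  unfold zc
  fun_prop

lemma cont_zk (k : ℕ) : Continuous fun E : ℝ => zk E k := by
  unfold zk
  fun_prop

end

lemma cont_upd0 : Continuous fun p : ℝ × (Site d → ℝ) => Function.update p.2 0 0 := by
  refine continuous_pi fun x => ?_
  by_cases h0 : x = 0
  · subst h0
    simp only [Function.update_self]
    exact continuous_const
  · simp only [Function.update_of_ne h0]
    fun_prop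

lemma cont_updy (y : Site d) :
    Continuous fun p : ℝ × (Site d → ℝ) => Function.update (Function.update p.2 y 0) 0 0 := by
  refine continuous_pi fun x => ?_
  by_cases h0 : x = 0
  · subst h0
    simp only [Function.update_self]
    exact continuous_const
  · simp only [Function.update_of_ne h0]
    by_cases h1 : x = y
    · subst h1
      simp only [Function.update_self]
      exact continuous_const
    · simp only [Function.update_of_ne h1]
      fun_prop

/-- `(E, V, κ) ↦ (E, V with V y = κ)` -/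
lemma mp_res (ρ : Measure ℝ) [IsProbabilityMeasure ρ] (ν : Measure ℝ) [SFinite ν] (y : Site d) :
    MeasurePreserving (fun q : (ℝ × (Site d → ℝ)) × ℝ => (q.1.1, Function.update q.1.2 y q.2))
      ((ν.prod (Measure.infinitePi fun _ : Site d => ρ)).prod ρ)
      (ν.prod (Measure.infinitePi fun _ : Site d => ρ)) := by
  have h1 : MeasurePreserving (MeasurableEquiv.prodAssoc : (ℝ × (Site d → ℝ)) × ℝ ≃ᵐ _)
      ((ν.prod (Measure.infinitePi fun _ : Site d => ρ)).prod ρ)
      (ν.prod ((Measure.infinitePi fun _ : Site d => ρ).prod ρ)) := measurePreserving_prodAssoc _ _ _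
  have h2 : MeasurePreserving
      (Prod.map (id : ℝ → ℝ) (fun p : (Site d → ℝ) × ℝ => Function.update p.1 y p.2))
      (ν.prod ((Measure.infinitePi fun _ : Site d => ρ).prod ρ))
      (ν.prod (Measure.infinitePi fun _ : Site d => ρ)) :=
    (MeasurePreserving.id ν).prod (Pool.Agent.Helper26.Sw.mp_update (ν := ρ) y)
  exact h2.comp h1

section
variable {c R : ℝ} {hR : 0 ≤ R} {ρ : Measure ℝ} [IsProbabilityMeasure ρ] {D : ℝ≥0}
  {h f g : ℝ → ℝ}

lemma fub {L : ℝ} {B : Set (ℝ × (Site d → ℝ))} (hB : MeasurableSet B) {a : ℝ≥0∞}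
    (h : ∀ V, volume {E : ℝ | E ∈ Set.Icc (-L) L ∧ (E, V) ∈ B} ≤ a) :
    ((volume.restrict (Set.Icc (-L) L)).prod (Measure.infinitePi fun _ : Site d => ρ)) B ≤ a := by
  rw [Measure.prod_apply_symm hB]
  have h1 : ∀ V : Site d → ℝ, (volume.restrict (Set.Icc (-L) L)) ((fun E => (E, V)) ⁻¹' B) ≤ a := by
    intro V
    rw [Measure.restrict_apply' measurableSet_Icc]
    refine le_trans (measure_mono ?_) (h V)
    intro E hE
    exact ⟨hE.2, hE.1⟩
  refine (lintegral_mono h1).trans ?_
  rw [lintegral_const, measure_univ, mul_one]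

end

theorem step (hTwo : S_Two) (hBig : S_Big) {c R : ℝ} (hR : 0 ≤ R) (ρ : Measure ℝ)
    [IsProbabilityMeasure ρ] (D : ℝ≥0) (hD : ρ ≤ D • (volume : Measure ℝ))
    (hρ : ∀ᵐ κ ∂ρ, |κ| ≤ R) {h f g : ℝ → ℝ} (hC : Cur h f g) {y : Site d} (hy : y ≠ 0)
    {l : List (Site d)} (hl : y ∉ l) (hP : PL c hR ρ f g (y :: l)) : PL c hR ρ f g l := by
  -- `R` is positive
  have hR' : 0 < R := by
    rcases hR.lt_or_eq with h1 | h1
    · exact h1
    · exfalso
      have h2 : ∀ᵐ κ ∂ρ, κ = 0 := hρ.mono fun κ hκ => by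
        rw [← h1] at hκ
        exact abs_nonpos_iff.1 hκ
      have h3 : ρ {(0 : ℝ)}ᶜ = 0 := h2
      have h4 : ρ {(0 : ℝ)} = 0 := by
        refine le_antisymm ((hD _).trans ?_) bot_le
        simp
      have h5 : ρ Set.univ = 0 := by
        rw [← Set.union_compl_self {(0 : ℝ)}]
        exact measure_union_null h4 h3
      rw [measure_univ] at h5
      exact one_ne_zero h5
  intro L η hη
  obtain ⟨K, hK⟩ : ∃ K : ℝ, K = 4 ^ (l.length + 1) * (‖Kp d c‖ + R) := ⟨_, rfl⟩
  obtain ⟨R₀, hR₀, hB⟩ := hBig h f g hC K L (η / 4) (by positivity)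
  obtain ⟨δ₁, hδ₁, h1⟩ := hP L (η / 4) (by positivity)
  obtain ⟨s, hs⟩ : ∃ s : ℝ, s = (η / 4) / (2 * |L| * D * (4 * (R₀ + R)) + 1) := ⟨_, rfl⟩
  have hden : 0 < 2 * |L| * D * (4 * (R₀ + R)) + 1 := by positivity
  have hs0 : 0 < s := by rw [hs]; positivity
  have hs1 : 2 * |L| * D * (4 * (R₀ + R) * s) ≤ η / 4 := by
    have h2 : s * (2 * |L| * D * (4 * (R₀ + R)) + 1) = η / 4 := by
      rw [hs]; field_simp
    nlinarith
  refine ⟨δ₁ * s ^ 2, by positivity, fun k => ?_⟩
  have hsq : Real.sqrt (δ₁ * s ^ 2 / δ₁) = s := by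
    rw [mul_div_assoc, mul_comm, div_mul_cancel₀ _ hδ₁.ne', Real.sqrt_sq hs0.le]
  obtain ⟨δ, hδ⟩ : ∃ δ : ℝ, δ = δ₁ * s ^ 2 := ⟨_, rfl⟩
  have hδ0 : 0 < δ := by rw [hδ]; positivity
  rw [← hδ] at hsq ⊢
  obtain ⟨μ, hμ⟩ : ∃ μ, μ = (volume.restrict (Set.Icc (-L) L)).prod
    (Measure.infinitePi fun _ : Site d => ρ) := ⟨_, rfl⟩
  have h1k := h1 k
  -- continuity
  have hA : ∀ l' : List (Site d), ∀ ψ, Continuous fun p : ℝ × (Site d → ℝ) =>
      rem l' (TC c hR (Function.update p.2 0 0)) ψ := fun l' ψ =>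
    cont_rem (A := fun p : ℝ × (Site d → ℝ) => TC c hR (Function.update p.2 0 0))
      (fun ψ => (cont_TC c hR ψ).comp cont_upd0) l' ψ
  have hA' : ∀ ψ, Continuous fun p : ℝ × (Site d → ℝ) =>
      cp (rem l (TC c hR (Function.update (Function.update p.2 y 0) 0 0))) (dl 0) ψ := fun ψ =>
    cont_cp (A := fun p : ℝ × (Site d → ℝ) =>
      rem l (TC c hR (Function.update (Function.update p.2 y 0) 0 0)))
      (fun ψ => cont_rem (A := fun p : ℝ × (Site d → ℝ) =>
        TC c hR (Function.update (Function.update p.2 y 0) 0 0))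
        (fun ψ => (cont_TC c hR ψ).comp (cont_updy y)) l ψ) 0 ψ
  have cz1 : Continuous fun p : ℝ × (Site d → ℝ) => zc f g p.1 k :=
    (cont_zc hC k).comp continuous_fst
  have cz2 : Continuous fun p : ℝ × (Site d → ℝ) => zk p.1 k := (cont_zk k).comp continuous_fst
  have cW : ∀ (l' : List (Site d)) (ζ : ℝ × (Site d → ℝ) → ℂ), Continuous ζ →
      (∀ p, (ζ p).im ≠ 0) → Continuous fun p : ℝ × (Site d → ℝ) =>
        wf (rem l' (TC c hR (Function.update p.2 0 0))) (dl 0) (ζ p) := fun l' ζ c1 c2 =>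
    cont_wf' (fun p => rem_sa (TC_sa c hR _) l') (hA l') c1 c2 (dl_ne 0)
  have cW' : ∀ (ζ : ℝ × (Site d → ℝ) → ℂ), Continuous ζ →
      (∀ p, (ζ p).im ≠ 0) → Continuous fun p : ℝ × (Site d → ℝ) =>
        wf (cp (rem l (TC c hR (Function.update (Function.update p.2 y 0) 0 0))) (dl 0)) (dl y)
          (ζ p) := fun ζ c1 c2 =>
    cont_wf' (fun p => cp_sa _ (rem_sa (TC_sa c hR _) l) _) hA' c1 c2 (dl_ne y)
  -- the sets
  obtain ⟨B, hBd⟩ : ∃ B : Set (ℝ × (Site d → ℝ)), B = {p : ℝ × (Site d → ℝ) |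
    ‖wf (rem l (TC c hR (Function.update p.2 0 0))) (dl 0) (zc f g p.1 k) -
      wf (rem l (TC c hR (Function.update p.2 0 0))) (dl 0) (zk p.1 k)‖ < δ} := ⟨_, rfl⟩
  obtain ⟨B1, hB1⟩ : ∃ B : Set (ℝ × (Site d → ℝ)), B = {p : ℝ × (Site d → ℝ) |
    ‖wf (rem (y :: l) (TC c hR (Function.update p.2 0 0))) (dl 0) (zc f g p.1 k) -
      wf (rem (y :: l) (TC c hR (Function.update p.2 0 0))) (dl 0) (zk p.1 k)‖ < δ₁} := ⟨_, rfl⟩
  obtain ⟨B2, hB2⟩ : ∃ B : Set (ℝ × (Site d → ℝ)), B = {p : ℝ × (Site d → ℝ) | R₀ <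
    ‖wf (cp (rem l (TC c hR (Function.update (Function.update p.2 y 0) 0 0))) (dl 0)) (dl y)
      (zc f g p.1 k)‖} := ⟨_, rfl⟩
  obtain ⟨B3, hB3⟩ : ∃ B : Set (ℝ × (Site d → ℝ)), B = {p : ℝ × (Site d → ℝ) | R₀ <
    ‖wf (cp (rem l (TC c hR (Function.update (Function.update p.2 y 0) 0 0))) (dl 0)) (dl y)
      (zk p.1 k)‖} := ⟨_, rfl⟩
  have zi1 : ∀ p : ℝ × (Site d → ℝ), (zc f g p.1 k).im ≠ 0 := fun p => zc_im hC p.1 k
  have zi2 : ∀ p : ℝ × (Site d → ℝ), (zk p.1 k).im ≠ 0 := fun p => zk_im p.1 k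
  have mB : MeasurableSet B := by
    rw [hBd]
    exact measurableSet_lt ((cW l _ cz1 zi1).sub (cW l _ cz2 zi2)).norm.measurable
      measurable_const
  have mB1 : MeasurableSet B1 := by
    rw [hB1]
    exact measurableSet_lt ((cW (y :: l) _ cz1 zi1).sub (cW (y :: l) _ cz2 zi2)).norm.measurable
      measurable_const
  have mB2 : MeasurableSet B2 := by
    rw [hB2]
    exact measurableSet_lt measurable_const (cW' _ cz1 zi1).norm.measurable
  have mB3 : MeasurableSet B3 := by
    rw [hB3]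
    exact measurableSet_lt measurable_const (cW' _ cz2 zi2).norm.measurable
  have b1 : μ B1 ≤ ENNReal.ofReal (η / 4) := by rw [hμ, hB1]; exact h1k
  have hKn : ∀ V : Site d → ℝ, ‖cp (rem l (TC c hR (Function.update (Function.update V y 0) 0 0)))
      (dl 0)‖ ≤ K := by
    intro V
    refine (norm_cp _ 0).trans ?_
    rw [hK, pow_succ]
    have e1 := norm_rem (TC c hR (Function.update (Function.update V y 0) 0 0)) l
    have e2 := norm_TC c hR (Function.update (Function.update V y 0) 0 0)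
    have e3 : (4 : ℝ) ^ l.length * ‖TC c hR (Function.update (Function.update V y 0) 0 0)‖ ≤
      4 ^ l.length * (‖Kp d c‖ + R) := by gcongr
    linarith
  have b2 : μ B2 ≤ ENNReal.ofReal (η / 4) := by
    rw [hμ]
    refine fub mB2 fun V => ?_
    rw [hB2]
    exact (hB (Site d) _ (cp_sa _ (rem_sa (TC_sa c hR _) l) _) (hKn V) (dl y) (STAT.norm_dl y)
      k).2
  have b3 : μ B3 ≤ ENNReal.ofReal (η / 4) := by
    rw [hμ]
    refine fub mB3 fun V => ?_
    rw [hB3]
    exact (hB (Site d) _ (cp_sa _ (rem_sa (TC_sa c hR _) l) _) (hKn V) (dl y) (STAT.norm_dl y)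
      k).1
  obtain ⟨a, ha⟩ : ∃ a : ℝ≥0∞, a = (D : ℝ≥0∞) * ENNReal.ofReal (4 * (R₀ + R) * s) := ⟨_, rfl⟩
  -- the fibres
  have fib : ∀ q : ℝ × (Site d → ℝ),
      ρ {κ : ℝ | (q.1, Function.update q.2 y κ) ∈ B} ≤
        B1.indicator 1 q + B2.indicator 1 q + B3.indicator 1 q + a := by
    intro q
    by_cases q1 : q ∈ B1
    · rw [Set.indicator_of_mem q1]
      refine prob_le_one.trans ?_
      exact le_add_right (le_add_right (le_add_right le_rfl))
    by_cases q2 : q ∈ B2
    · rw [Set.indicator_of_mem q2]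
      refine prob_le_one.trans ?_
      exact le_add_right (le_add_right le_add_self)
    by_cases q3 : q ∈ B3
    · rw [Set.indicator_of_mem q3]
      refine prob_le_one.trans ?_
      exact le_add_right le_add_self
    refine le_trans ?_ (le_add_self : a ≤ _)
    rw [hB1] at q1
    rw [hB2] at q2
    rw [hB3] at q3
    simp only [Set.mem_ofPred_eq, not_lt] at q1 q2 q3
    rw [rem_cons c hR q.2 hy hl] at q1
    have two := hTwo (Site d) (rem l (TC c hR (Function.update (Function.update q.2 y 0) 0 0)))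
      (rem_sa (TC_sa c hR _) l) (dl 0) (dl y) (STAT.norm_dl 0) (STAT.norm_dl y)
      (inner_dl_ne (Ne.symm hy)) (zc f g q.1 k) (zk q.1 k) (zi1 q) (zi2 q) R R₀ δ δ₁ hR' hR₀ hδ0
      hδ₁ q1 q2 q3
    rw [hsq] at two
    have h2 : ρ {κ : ℝ | (q.1, Function.update q.2 y κ) ∈ B} ≤
        ρ {κ : ℝ | κ ∈ Set.Icc (-R) R ∧
          ‖wf (pt (rem l (TC c hR (Function.update (Function.update q.2 y 0) 0 0))) (dl y) κ)
            (dl 0) (zc f g q.1 k) -
          wf (pt (rem l (TC c hR (Function.update (Function.update q.2 y 0) 0 0))) (dl y) κ)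
            (dl 0) (zk q.1 k)‖ < δ} := by
      refine measure_mono_ae ?_
      filter_upwards [hρ] with κ hκ hm
      have h3 : (q.1, Function.update q.2 y κ) ∈ B := hm
      rw [hBd] at h3
      simp only [Set.mem_ofPred_eq] at h3
      rw [TC_upd c hR q.2 hy hκ, rem_pt _ hl] at h3
      exact ⟨abs_le.1 hκ, h3⟩
    refine h2.trans ((hD _).trans ?_)
    rw [Measure.smul_apply, ha]
    have h4 : ∀ x : ℝ≥0∞, D • x = (D : ℝ≥0∞) * x := fun x => rfl
    rw [h4]
    gcongr
  have hmp := mp_res (d := d) ρ (volume.restrict (Set.Icc (-L) L)) y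
  rw [← hBd]
  rw [← hμ] at hmp ⊢
  have : SFinite μ := by rw [hμ]; infer_instance
  rw [← hmp.measure_preimage mB.nullMeasurableSet, Measure.prod_apply (hmp.measurable mB)]
  have huniv : μ Set.univ ≤ ENNReal.ofReal (2 * |L|) := by
    rw [hμ, Measure.prod_apply_symm MeasurableSet.univ]
    simp only [Set.preimage_univ, Measure.restrict_apply_univ, Real.volume_Icc, lintegral_const,
      measure_univ, mul_one]
    refine ENNReal.ofReal_le_ofReal ?_
    have := le_abs_self L
    linarith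
  calc ∫⁻ q, ρ (Prod.mk q ⁻¹' ((fun q : (ℝ × (Site d → ℝ)) × ℝ =>
        (q.1.1, Function.update q.1.2 y q.2)) ⁻¹' B)) ∂μ
      ≤ ∫⁻ q, (B1.indicator 1 q + B2.indicator 1 q + B3.indicator 1 q + a) ∂μ :=
        lintegral_mono fun q => fib q
    _ = μ B1 + μ B2 + μ B3 + a * μ Set.univ := by
        rw [lintegral_add_right _ measurable_const, lintegral_add_right _
          (measurable_one.indicator mB3), lintegral_add_right _ (measurable_one.indicator mB2),
          lintegral_indicator_one mB1, lintegral_indicator_one mB2, lintegral_indicator_one mB3,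
          lintegral_const]
    _ ≤ ENNReal.ofReal (η / 4) + ENNReal.ofReal (η / 4) + ENNReal.ofReal (η / 4) +
        ENNReal.ofReal (η / 4) := by
        gcongr
        rw [ha]
        calc (D : ℝ≥0∞) * ENNReal.ofReal (4 * (R₀ + R) * s) * μ Set.univ
            ≤ (D : ℝ≥0∞) * ENNReal.ofReal (4 * (R₀ + R) * s) * ENNReal.ofReal (2 * |L|) := by
              gcongr
          _ = ENNReal.ofReal (D * (4 * (R₀ + R) * s) * (2 * |L|)) := by
              rw [ENNReal.ofReal_mul (p := (D : ℝ) * (4 * (R₀ + R) * s)) (by positivity),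
                ENNReal.ofReal_mul (p := (D : ℝ)) (by positivity), ENNReal.ofReal_coe_nnreal]
          _ ≤ ENNReal.ofReal (η / 4) := by
              refine ENNReal.ofReal_le_ofReal ?_
              linarith
    _ = ENNReal.ofReal η := by
        rw [← ENNReal.ofReal_add (by positivity) (by positivity),
          ← ENNReal.ofReal_add (by positivity) (by positivity),
          ← ENNReal.ofReal_add (by positivity) (by positivity)]
        congr 1
        ring

end Pool.Agent.Helper29.Cc
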