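import Pool.Agent.Helper29.Cc.Stm
import Pool.Agent.Helper26.Sw.Pr

/-! # Removing sites: algebra and continuity -/

set_option autoImplicit false

open MeasureTheory Filter Topology ProbabilityTheory
open scoped BigOperators ENNReal NNReal InnerProductSpace ComplexConjugate

namespace Pool.Agent.Helper29.Cc

open Pool.Agent.H5R2.NB Pool.Agent.Helper26.Nb Pool.Agent.Helper26.Cm Pool.Agent.Helper26.Dj
  Pool.Agent.Helper26.Rg Pool.Agent.Helper26.Cc
open Pool.Agent.TH369.AN (Rz pt ro cp fc pt_sa cp_sa rz_eq rz_uniq rz_norm)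
open Pool.Agent.TH369.MU (zk ep)

variable {d : ℕ}

/-- the operator with the sites of the list removed -/
noncomputable def rem :
    List (Site d) → (L2 (Site d) →L[ℂ] L2 (Site d)) → (L2 (Site d) →L[ℂ] L2 (Site d))
  | [], T => T
  | (y :: l), T => cp (rem l T) (dl y)

lemma rem_sa {T : L2 (Site d) →L[ℂ] L2 (Site d)} (hT : IsSelfAdjoint T) (l : List (Site d)) :
    IsSelfAdjoint (rem l T) := by
  induction l with
  | nil => exact hT
  | cons y l ih => exact cp_sa _ ih _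

lemma co_ap (y : Site d) (ψ : L2 (Site d)) :
    (1 - ro (dl y) : L2 (Site d) →L[ℂ] L2 (Site d)) ψ = ψ - ψ y • dl y := by
  rw [_root_.sub_apply, ro_ap, CV.inner_dl]
  rfl

lemma co_ap' (y : Site d) (ψ : L2 (Site d)) (x : Site d) :
    ((1 - ro (dl y) : L2 (Site d) →L[ℂ] L2 (Site d)) ψ) x = if y = x then 0 else ψ x := by
  rw [co_ap, lp.coeFn_sub, Pi.sub_apply, lp.coeFn_smul, Pi.smul_apply, smul_eq_mul, dl_apply]
  by_cases h : y = x
  · subst h; simp
  · simp [h]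

lemma cp_ap (T : L2 (Site d) →L[ℂ] L2 (Site d)) (y : Site d) (ψ : L2 (Site d)) (x : Site d) :
    (cp T (dl y) ψ) x = if y = x then 0 else
      (T ((1 - ro (dl y) : L2 (Site d) →L[ℂ] L2 (Site d)) ψ)) x :=
  co_ap' y _ x

lemma cp_pt_ne (T : L2 (Site d) →L[ℂ] L2 (Site d)) {y z : Site d} (h : z ≠ y) (κ : ℝ) :
    cp (pt T (dl y) κ) (dl z) = pt (cp T (dl z)) (dl y) κ := by
  ext ψ x
  rw [cp_ap, pt_ap, pt_ap, lp.coeFn_add, lp.coeFn_add, Pi.add_apply, Pi.add_apply, cp_ap,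
    lp.coeFn_smul, Pi.smul_apply, smul_eq_mul, lp.coeFn_smul, Pi.smul_apply, smul_eq_mul, dl_apply,
    CV.inner_dl, CV.inner_dl, co_ap', if_neg h]
  by_cases h1 : z = x
  · subst h1
    rw [if_pos rfl, if_pos rfl, if_neg (Ne.symm h)]
    ring
  · rw [if_neg h1, if_neg h1]

lemma cp_pt_eq (T : L2 (Site d) →L[ℂ] L2 (Site d)) (y : Site d) (κ : ℝ) :
    cp (pt T (dl y) κ) (dl y) = cp T (dl y) := by
  ext ψ x
  rw [cp_ap, pt_ap, cp_ap, lp.coeFn_add, Pi.add_apply,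
    lp.coeFn_smul, Pi.smul_apply, smul_eq_mul, dl_apply, CV.inner_dl, co_ap', if_pos rfl]
  simp

lemma rem_pt (T : L2 (Site d) →L[ℂ] L2 (Site d)) {y : Site d} {l : List (Site d)} (h : y ∉ l)
    (κ : ℝ) : rem l (pt T (dl y) κ) = pt (rem l T) (dl y) κ := by
  induction l with
  | nil => rfl
  | cons z l ih =>
    rw [List.mem_cons, not_or] at h
    show cp (rem l _) _ = pt (cp (rem l T) (dl z)) (dl y) κ
    rw [ih h.2, cp_pt_ne _ (Ne.symm h.1)]

lemma norm_co (y : Site d) : ‖(1 - ro (dl y) : L2 (Site d) →L[ℂ] L2 (Site d))‖ ≤ 2 := by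
  refine ContinuousLinearMap.opNorm_le_bound _ (by norm_num) fun ψ => ?_
  rw [co_ap]
  have h1 : ‖ψ y‖ ≤ ‖ψ‖ := by
    rw [← CV.inner_dl y ψ]
    refine (norm_inner_le_norm _ _).trans ?_
    rw [STAT.norm_dl, one_mul]
  calc ‖ψ - ψ y • dl y‖ ≤ ‖ψ‖ + ‖ψ y • (dl y : L2 (Site d))‖ := norm_sub_le _ _
    _ = ‖ψ‖ + ‖ψ y‖ := by rw [norm_smul, STAT.norm_dl, mul_one]
    _ ≤ 2 * ‖ψ‖ := by linarith

lemma norm_cp (T : L2 (Site d) →L[ℂ] L2 (Site d)) (y : Site d) : ‖cp T (dl y)‖ ≤ 4 * ‖T‖ := by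
  unfold cp
  refine (norm_mul_le _ _).trans ?_
  refine (mul_le_mul (norm_mul_le _ _) (norm_co y) (norm_nonneg _) (by positivity)).trans ?_
  have := norm_co y
  have h2 := norm_nonneg T
  nlinarith [norm_nonneg (1 - ro (dl y) : L2 (Site d) →L[ℂ] L2 (Site d))]

lemma norm_rem (T : L2 (Site d) →L[ℂ] L2 (Site d)) (l : List (Site d)) :
    ‖rem l T‖ ≤ 4 ^ l.length * ‖T‖ := by
  induction l with
  | nil => simp [rem]
  | cons z l ih =>
    refine (norm_cp _ z).trans ?_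
    rw [List.length_cons, pow_succ]
    nlinarith

lemma norm_TC (c : ℝ) {R : ℝ} (hR : 0 ≤ R) (V : Site d → ℝ) : ‖TC c hR V‖ ≤ ‖Kp d c‖ + R := by
  unfold TC TV
  refine (norm_add_le _ _).trans ?_
  gcongr
  exact (mulL_le _ _ _).trans (by rw [max_eq_left hR])

lemma TC_sa (c : ℝ) {R : ℝ} (hR : 0 ≤ R) (V : Site d → ℝ) : IsSelfAdjoint (TC c hR V) :=
  TV_sa _ _ _ _

lemma TC_apply (c : ℝ) {R : ℝ} (hR : 0 ≤ R) (V : Site d → ℝ) (ψ : L2 (Site d)) (x : Site d) :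
    (TC c hR V ψ) x = hopf c (fun y => ψ y) x + cl R V x * ψ x := TV_apply _ _ _ _ _ _

lemma TC_upd (c : ℝ) {R : ℝ} (hR : 0 ≤ R) (V : Site d → ℝ) {y : Site d} (hy : y ≠ 0) {κ : ℝ}
    (hκ : |κ| ≤ R) : TC c hR (Function.update (Function.update V y κ) 0 0) =
      pt (TC c hR (Function.update (Function.update V y 0) 0 0)) (dl y) κ := by
  have hκ' := abs_le.1 hκ
  ext ψ x
  rw [pt_ap, lp.coeFn_add, Pi.add_apply, TC_apply, TC_apply, CV.inner_dl, lp.coeFn_smul,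
    Pi.smul_apply, smul_eq_mul, dl_apply]
  unfold cl pot
  by_cases h0 : x = 0
  · subst h0
    rw [Function.update_self, Function.update_self, if_neg hy]
    ring
  · rw [Function.update_of_ne h0, Function.update_of_ne h0]
    by_cases h1 : y = x
    · subst h1
      have e1 : (fun r => max (-R) (min R r)) κ = κ := by
        show max (-R) (min R κ) = κ
        rw [min_eq_right hκ'.2, max_eq_right hκ'.1]
      have e2 : (fun r => max (-R) (min R r)) 0 = 0 := by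
        show max (-R) (min R 0) = 0
        rw [min_eq_right hR, max_eq_right (by linarith)]
      rw [Function.update_self, Function.update_self, if_pos rfl, e1, e2]
      push_cast
      ring
    · rw [Function.update_of_ne (Ne.symm h1), Function.update_of_ne (Ne.symm h1), if_neg h1]
      ring

/-! ### continuity -/

variable {Y : Type} [TopologicalSpace Y]

lemma cont_TC (c : ℝ) {R : ℝ} (hR : 0 ≤ R) (ψ : L2 (Site d)) :
    Continuous fun V : Site d → ℝ => TC c hR V ψ := by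
  have h1 : Continuous fun q : (Site d → ℝ) × L2 (Site d) =>
      mulL (fun x => ((cl R q.1 x : ℝ) : ℂ)) R (nV (cl_le hR q.1)) q.2 := by
    refine mulL_cont (fun V : Site d → ℝ => fun x => ((cl R V x : ℝ) : ℂ)) R
      (fun V => nV (cl_le hR V)) fun x => ?_
    unfold cl pot
    fun_prop
  have h2 : Continuous fun V : Site d → ℝ => ((V, ψ) : (Site d → ℝ) × L2 (Site d)) := by fun_prop
  exact continuous_const.add (h1.comp h2)

lemma cont_cp {A : Y → L2 (Site d) →L[ℂ] L2 (Site d)} (hA : ∀ ψ, Continuous fun y => A y ψ)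
    (z : Site d) (ψ : L2 (Site d)) : Continuous fun y => cp (A y) (dl z) ψ :=
  (1 - ro (dl z) : L2 (Site d) →L[ℂ] L2 (Site d)).continuous.comp
    (hA ((1 - ro (dl z) : L2 (Site d) →L[ℂ] L2 (Site d)) ψ))

lemma cont_rem {A : Y → L2 (Site d) →L[ℂ] L2 (Site d)} (hA : ∀ ψ, Continuous fun y => A y ψ)
    (l : List (Site d)) (ψ : L2 (Site d)) : Continuous fun y => rem l (A y) ψ := by
  induction l generalizing ψ with
  | nil => exact hA ψ
  | cons z l ih => exact cont_cp (A := fun y => rem l (A y)) ih z ψ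

lemma cont_Rz {A : Y → L2 (Site d) →L[ℂ] L2 (Site d)} (hs : ∀ y, IsSelfAdjoint (A y))
    (hA : ∀ ψ, Continuous fun y => A y ψ) {ζ : Y → ℂ} (hζ : Continuous ζ)
    (hz : ∀ y, (ζ y).im ≠ 0) (ψ : L2 (Site d)) : Continuous fun y => Rz (A y) (ζ y) ψ := by
  rw [continuous_iff_continuousAt]
  intro y₀
  obtain ⟨u, hu⟩ : ∃ u, u = Rz (A y₀) (ζ y₀) ψ := ⟨_, rfl⟩
  have key : ∀ y, Rz (A y) (ζ y) ψ - u =
      Rz (A y) (ζ y) (A y₀ u - A y u + (ζ y - ζ y₀) • u) := by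
    intro y
    apply rz_uniq (A y) (hs y) (ζ y) (hz y)
    have h1 := rz_eq (A y) (hs y) (ζ y) (hz y) ψ
    have h2 := rz_eq (A y₀) (hs y₀) (ζ y₀) (hz y₀) ψ
    rw [← hu] at h2
    rw [map_sub, smul_sub, sub_smul]
    calc A y (Rz (A y) (ζ y) ψ) - A y u - (ζ y • Rz (A y) (ζ y) ψ - ζ y • u)
        = (A y (Rz (A y) (ζ y) ψ) - ζ y • Rz (A y) (ζ y) ψ) - A y u + ζ y • u := by abel
      _ = (A y₀ u - ζ y₀ • u) - A y u + ζ y • u := by rw [h1, h2]
      _ = _ := by abel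
  have hb : ∀ y, ‖Rz (A y) (ζ y) ψ - u‖ ≤
      ‖A y₀ u - A y u + (ζ y - ζ y₀) • u‖ / |(ζ y).im| := by
    intro y
    rw [key]
    exact rz_norm (A y) (hs y) (ζ y) (hz y) _
  have hlim : Tendsto (fun y => ‖A y₀ u - A y u + (ζ y - ζ y₀) • u‖ / |(ζ y).im|) (𝓝 y₀)
      (𝓝 0) := by
    have h1 : Continuous fun y => ‖A y₀ u - A y u + (ζ y - ζ y₀) • u‖ / |(ζ y).im| := by
      refine Continuous.div ?_ ?_ fun y => abs_ne_zero.2 (hz y)
      · exact ((continuous_const.sub (hA u)).add ((hζ.sub continuous_const).smul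
          continuous_const)).norm
      · exact (Complex.continuous_im.comp hζ).abs
    have h2 := h1.tendsto y₀
    simpa using h2
  show Tendsto (fun y => Rz (A y) (ζ y) ψ) (𝓝 y₀) (𝓝 (Rz (A y₀) (ζ y₀) ψ))
  rw [← hu]
  exact tendsto_iff_norm_sub_tendsto_zero.2 (squeeze_zero (fun _ => norm_nonneg _) hb hlim)

lemma cont_wf' {A : Y → L2 (Site d) →L[ℂ] L2 (Site d)} (hs : ∀ y, IsSelfAdjoint (A y))
    (hA : ∀ ψ, Continuous fun y => A y ψ) {ζ : Y → ℂ} (hζ : Continuous ζ)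
    (hz : ∀ y, (ζ y).im ≠ 0) {e : L2 (Site d)} (he : e ≠ 0) :
    Continuous fun y => wf (A y) e (ζ y) := by
  unfold wf
  refine Continuous.neg (Continuous.inv₀ ?_ fun y => F_ne (hs y) he (hz y))
  exact continuous_const.inner (cont_Rz hs hA hζ hz e)

end Pool.Agent.Helper29.Cc
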