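import Pool.Agent.Helper26.Cc.Stm

/-! # The annealed form of the separation of the Weyl functions along a curve -/

set_option autoImplicit false

open MeasureTheory Filter Topology ProbabilityTheory
open scoped BigOperators ENNReal NNReal InnerProductSpace ComplexConjugate

namespace Pool.Agent.Helper29.Cc

open Pool.Agent.H5R2.NB Pool.Agent.Helper26.Nb Pool.Agent.Helper26.Cm Pool.Agent.Helper26.Dj
  Pool.Agent.Helper26.Rg Pool.Agent.Helper26.Cc
open Pool.Agent.TH369.AN (Rz pt ro cp fc)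
open Pool.Agent.TH369.MU (zk ep)

/-- the annealed form of `S_Sep` -/
def S_Ann : Prop :=
  ∀ (d : ℕ) (c : ℝ) (R : ℝ) (hR : 0 ≤ R) (ρ : Measure ℝ), IsProbabilityMeasure ρ →
    ∀ D : ℝ≥0, ρ ≤ D • (volume : Measure ℝ) → (∀ᵐ κ ∂ρ, |κ| ≤ R) →
      ∀ (h f g : ℝ → ℝ), Cur h f g →
        (∀ k : ℕ, Measurable fun p : ℝ × (Site d → ℝ) =>
          wf (TC c hR (Function.update p.2 0 0)) (dl 0) (zc f g p.1 k) -
            wf (TC c hR (Function.update p.2 0 0)) (dl 0) (zk p.1 k)) ∧
        ∀ L η : ℝ, 0 < η → ∃ δ : ℝ, 0 < δ ∧ ∀ k : ℕ,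
          ((volume.restrict (Set.Icc (-L) L)).prod (Measure.infinitePi fun _ : Site d => ρ))
            {p : ℝ × (Site d → ℝ) |
              ‖wf (TC c hR (Function.update p.2 0 0)) (dl 0) (zc f g p.1 k) -
                wf (TC c hR (Function.update p.2 0 0)) (dl 0) (zk p.1 k)‖ < δ} ≤
              ENNReal.ofReal η

end Pool.Agent.Helper29.Cc
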